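import Pool.Agent.Lib.MP_28303a_al.NT.H65.Eul

/-! # Every idempotent matrix is the matrix of a located projective module -/

set_option autoImplicit false
set_option linter.unusedSectionVars false
set_option linter.unusedVariables false

namespace Pool.Agent.NegK.NT.H65

universe u

open CategoryTheory Limits Pretriangulated Idempotents

section

variable {k : Type u} [Ring k] {Γ : Type u} [Group Γ] {B : Type u} [MulAction Γ B] (P : Pre Γ B)

/-- The free module of rank `n` located at `b`. -/
abbrev At (k : Type u) [Ring k] (P : Pre Γ B) (n : ℕ) (b : B) : Loc k P :=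
  ⟨ULift.{u} (Fin n), fun _ => b⟩

variable {P}

/-- The endomorphism with a given matrix. -/
noncomputable def mat (hP : ∀ x y, P.le x y) {n : ℕ} (b : B)
    (E : Matrix (Fin n) (Fin n) (MonoidAlgebra k Γ)) : At k P n b ⟶ At k P n b :=
  Loc.ofB (A := At k P n b) (A' := At k P n b)
    (fun i => Finsupp.equivFunOnFinite.symm fun j => E i.down j.down)
    (fun _ _ _ _ => hP _ _)

theorem mat_apply (hP : ∀ x y, P.le x y) {n : ℕ} (b : B)
    (E : Matrix (Fin n) (Fin n) (MonoidAlgebra k Γ)) (i j : ULift.{u} (Fin n)) :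
    Loc.lin (mat hP b E) (Finsupp.single i 1) j = E i.down j.down := by
  unfold mat
  rw [Loc.lin_ofB]
  rfl

theorem mat_comp (hP : ∀ x y, P.le x y) {n : ℕ} (b : B)
    (E F : Matrix (Fin n) (Fin n) (MonoidAlgebra k Γ)) :
    mat hP b E ≫ mat hP b F = mat hP b (E * F) := by
  refine Loc.ext_basis fun i => Finsupp.ext fun j => ?_
  rw [Loc.lin_comp, LinearMap.comp_apply, Loc.map_apply, Finsupp.sum_fintype _ _
    (fun _ => zero_mul _), mat_apply, Matrix.mul_apply]
  refine (Finset.sum_congr rfl fun l _ => ?_).trans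
    (Equiv.sum_comp Equiv.ulift fun l => E i.down l * F l j.down)
  rw [mat_apply, mat_apply]
  rfl

/-- The located projective module of an idempotent matrix. -/
noncomputable def kOf (hP : ∀ x y, P.le x y) (b : B) (p : Idem (MonoidAlgebra k Γ)) : KL k P :=
  ⟨At k P p.n b, mat hP b p.e, by rw [mat_comp, p.idem]⟩

instance kOf_finite (hP : ∀ x y, P.le x y) (b : B) (p : Idem (MonoidAlgebra k Γ)) :
    Finite (kOf hP b p).X.ι := inferInstanceAs (Finite (ULift.{u} (Fin p.n)))

theorem clsK_kOf (hP : ∀ x y, P.le x y) (b : B) (p : Idem (MonoidAlgebra k Γ)) :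
    clsK (kOf hP b p) = K0.cls p := by
  rw [clsK_fin (kOf hP b p)]
  set σ : Fin (Nat.card (ULift.{u} (Fin p.n))) ≃ Fin p.n :=
    (Finite.equivFin (ULift.{u} (Fin p.n))).symm.trans Equiv.ulift with hσ
  have hM : M (kOf hP b p).p = p.e.submatrix σ σ := by
    refine Matrix.ext fun i j => ?_
    exact mat_apply hP b p.e _ _
  refine cls_eq_of_equiv ⟨p.e.submatrix σ id, p.e.submatrix id σ, ?_, ?_⟩
  · show p.e.submatrix σ (Equiv.refl _) * p.e.submatrix (Equiv.refl _) σ = M (kOf hP b p).p
    rw [Matrix.submatrix_mul_equiv, p.idem, hM]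
  · show p.e.submatrix id σ * p.e.submatrix σ id = p.e
    rw [Matrix.submatrix_mul_equiv, p.idem]
    rfl

end

section

variable {Γ : Type u} [Group Γ] (T : Sys Γ)

/-- Every class in `K₀` of an idempotent matrix is the class of a located projective module over
`T.P ∅` located at a given box. -/
theorem exists_kOf (k : Type u) [Ring k] (b : T.Box) (p : Idem (MonoidAlgebra k Γ)) :
    ∃ Y : KL k (T.P ∅), Finite Y.X.ι ∧ (∀ i, Y.X.loc i = b) ∧ clsK Y = K0.cls p :=
  ⟨kOf (fun _ _ i hi => absurd hi (Finset.notMem_empty i)) b p, kOf_finite _ _ _, fun _ => rfl,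
    clsK_kOf _ _ _⟩

end

end Pool.Agent.NegK.NT.H65
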