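import Mathlib

/-! # Euler characteristics with respect to an additive class function -/

set_option autoImplicit false
set_option linter.unusedSectionVars false
set_option linter.unusedVariables false

namespace Pool.Agent.NegK.NT.H65

open CategoryTheory Limits

universe u v w

/-- Additive class functions on a class `S` of objects. -/
structure ClF (C : Type u) [Category.{v} C] [Preadditive C] (G : Type w) [AddCommGroup G] where
  S : C → Prop
  cl : C → G
  iso : ∀ {X Y : C}, (X ≅ Y) → S X → S Y ∧ cl X = cl Y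
  add : ∀ {X Y Z : C} (i : X ⟶ Z) (p : Z ⟶ X) (j : Y ⟶ Z) (q : Z ⟶ Y), i ≫ p = 𝟙 X → j ≫ q = 𝟙 Y →
    i ≫ q = 0 → j ≫ p = 0 → p ≫ i + q ≫ j = 𝟙 Z → S X → S Y → S Z ∧ cl Z = cl X + cl Y
  spl : ∀ {X : C} (e : X ⟶ X), S X → e ≫ e = e →
    ∃ (Y : C) (r : X ⟶ Y) (s : Y ⟶ X), s ≫ r = 𝟙 Y ∧ r ≫ s = e ∧ S Y

namespace ClF

section

variable {C : Type u} [Category.{v} C] [Preadditive C] {G : Type w} [AddCommGroup G]
  (F : ClF C G)

theorem cl_zero {Z : C} (hZ : IsZero Z) (hS : F.S Z) : F.cl Z = 0 := by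
  have h := (F.add (X := Z) (Y := Z) (Z := Z) 0 0 0 0 (hZ.eq_of_src _ _) (hZ.eq_of_src _ _)
    (hZ.eq_of_src _ _) (hZ.eq_of_src _ _) (hZ.eq_of_src _ _) hS hS).2
  exact left_eq_add.1 h

/-- The Euler characteristic. -/
noncomputable def ch (M : CochainComplex C ℤ) : G := ∑ᶠ n : ℤ, (Int.negOnePow n : ℤ) • F.cl (M.X n)

theorem finite_of_bdd {g : ℤ → G} {a b : ℤ} (h : ∀ n, (n < a ∨ b < n) → g n = 0) :
    (Function.support g).Finite := by
  refine (Set.finite_Icc a b).subset fun n hn => ?_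
  by_contra hc
  rw [Set.mem_Icc, not_and_or, not_le, not_le] at hc
  exact hn (h n hc)

theorem finsum_shift {g : ℤ → G} :
    ∑ᶠ n : ℤ, (Int.negOnePow n : ℤ) • g (n + 1) = - ∑ᶠ n : ℤ, (Int.negOnePow n : ℤ) • g n := by
  rw [← finsum_neg_distrib]
  rw [← finsum_comp_equiv (Equiv.addRight (1 : ℤ)) (f := fun n : ℤ =>
    -((Int.negOnePow n : ℤ) • g n))]
  refine finsum_congr fun n => ?_
  show (Int.negOnePow n : ℤ) • g (n + 1) = -((Int.negOnePow (n + 1) : ℤ) • g (n + 1))
  rw [Int.negOnePow_succ, Units.val_neg, neg_smul, neg_neg]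

/-- Contractible bounded complexes have Euler characteristic zero. -/
theorem ch_contr (M : CochainComplex C ℤ) (hS : ∀ n, F.S (M.X n))
    (hb : ∃ a b : ℤ, ∀ n, (n < a ∨ b < n) → IsZero (M.X n)) (h : Homotopy (𝟙 M) 0) :
    F.ch M = 0 := by
  -- the relations
  have rel : ∀ l n m : ℤ, l + 1 = n → n + 1 = m →
      M.d n m ≫ h.hom m n + h.hom n l ≫ M.d l n = 𝟙 (M.X n) := by
    intro l n m hl hm
    have h1 := h.comm n
    rw [dNext_eq h.hom (show (ComplexShape.up ℤ).Rel n m from hm),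
      prevD_eq h.hom (show (ComplexShape.up ℤ).Rel l n from hl)] at h1
    rw [HomologicalComplex.zero_f, add_zero] at h1
    exact h1.symm
  have dhd : ∀ n m : ℤ, n + 1 = m → M.d n m ≫ h.hom m n ≫ M.d n m = M.d n m := by
    intro n m hm
    have h1 := rel (n - 1) n m (by ring) hm
    have h2 := congrArg (· ≫ M.d n m) h1
    simp only [Preadditive.add_comp, Category.assoc, Category.id_comp] at h2
    rw [M.d_comp_d, comp_zero, add_zero] at h2
    exact h2
  -- the splittings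
  have spl : ∀ n : ℤ, ∃ (Y : C) (r : M.X n ⟶ Y) (s : Y ⟶ M.X n), s ≫ r = 𝟙 Y ∧
      r ≫ s = h.hom n (n - 1) ≫ M.d (n - 1) n ∧ F.S Y := by
    intro n
    refine F.spl _ (hS n) ?_
    rw [Category.assoc, dhd (n - 1) n (by ring)]
  choose B r s hsr hrs hB using spl
  have hse : ∀ n, s n ≫ h.hom n (n - 1) ≫ M.d (n - 1) n = s n := fun n => by
    rw [← hrs, ← Category.assoc, hsr, Category.id_comp]
  have her : ∀ n, (h.hom n (n - 1) ≫ M.d (n - 1) n) ≫ r n = r n := fun n => by
    rw [← hrs, Category.assoc, hsr, Category.comp_id]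
  have hrs' : ∀ n m : ℤ, n + 1 = m → r m ≫ s m = h.hom m n ≫ M.d n m := by
    intro n m hm
    obtain rfl : n = m - 1 := by lia
    exact hrs m
  have key : ∀ n m : ℤ, n + 1 = m → F.cl (M.X n) = F.cl (B n) + F.cl (B m) := by
    intro n m hm
    have hd := M.d_comp_d (n - 1) n m
    have hdhd := dhd n m hm
    have hsd : s n ≫ M.d n m = 0 := by
      rw [← hse, Category.assoc, Category.assoc, hd, comp_zero, comp_zero]
    have hrel := rel (n - 1) n m (by ring) hm
    -- the idempotent `d h`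
    have hff : (M.d n m ≫ h.hom m n) ≫ M.d n m ≫ h.hom m n = M.d n m ≫ h.hom m n := by
      rw [← Category.assoc, Category.assoc (M.d n m), hdhd]
    have hfe : (M.d n m ≫ h.hom m n) ≫ h.hom n (n - 1) ≫ M.d (n - 1) n = 0 := by
      have h1 := congrArg ((M.d n m ≫ h.hom m n) ≫ ·) hrel
      simp only [Preadditive.comp_add] at h1
      rw [hff, Category.comp_id] at h1
      exact left_eq_add.1 h1.symm
    refine (F.add (s n) (r n) (s m ≫ h.hom m n ≫ M.d n m ≫ h.hom m n) (M.d n m ≫ r m) (hsr n)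
      ?_ ?_ ?_ ?_ (hB n) (hB m)).2
    · have h1 : (s m ≫ h.hom m n ≫ M.d n m ≫ h.hom m n) ≫ M.d n m ≫ r m =
          s m ≫ h.hom m n ≫ (M.d n m ≫ h.hom m n ≫ M.d n m) ≫ r m := by
        simp only [Category.assoc]
      rw [h1, hdhd, ← Category.assoc (h.hom m n), ← hrs' n m hm, Category.assoc, hsr,
        Category.comp_id, hsr]
    · rw [← Category.assoc, hsd, zero_comp]
    · rw [← her n]
      have h1 : (s m ≫ h.hom m n ≫ M.d n m ≫ h.hom m n) ≫
          (h.hom n (n - 1) ≫ M.d (n - 1) n) ≫ r n =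
          s m ≫ h.hom m n ≫ ((M.d n m ≫ h.hom m n) ≫ h.hom n (n - 1) ≫ M.d (n - 1) n) ≫ r n := by
        simp only [Category.assoc]
      rw [h1, hfe, zero_comp, comp_zero, comp_zero]
    · have h1 : (M.d n m ≫ r m) ≫ s m ≫ h.hom m n ≫ M.d n m ≫ h.hom m n =
          M.d n m ≫ (r m ≫ s m) ≫ h.hom m n ≫ M.d n m ≫ h.hom m n := by
        simp only [Category.assoc]
      have h2 : M.d n m ≫ (h.hom m n ≫ M.d n m) ≫ h.hom m n ≫ M.d n m ≫ h.hom m n =
          ((M.d n m ≫ h.hom m n ≫ M.d n m) ≫ h.hom m n ≫ M.d n m) ≫ h.hom m n := by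
        simp only [Category.assoc]
      rw [h1, hrs' n m hm, h2, hdhd, hdhd, hrs, add_comm]
      exact hrel
  obtain ⟨a, b, hab⟩ := hb
  have hB0 : ∀ n, (n < a ∨ b < n) → F.cl (B n) = 0 := by
    intro n hn
    refine F.cl_zero ?_ (hB n)
    rw [IsZero.iff_id_eq_zero, ← hsr n, (hab n hn).eq_of_tgt (s n) 0, zero_comp]
  have e : F.ch M = ∑ᶠ n : ℤ, ((Int.negOnePow n : ℤ) • F.cl (B n) +
      (Int.negOnePow n : ℤ) • F.cl (B (n + 1))) :=
    finsum_congr fun n => by rw [key n (n + 1) rfl, smul_add]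
  rw [e, finsum_add_distrib, finsum_shift (g := fun n => F.cl (B n)), add_neg_cancel]
  · exact finite_of_bdd (a := a) (b := b) fun n hn => by rw [hB0 n hn, smul_zero]
  · exact finite_of_bdd (a := a - 1) (b := b) fun n hn => by
      rw [hB0 (n + 1) (by omega), smul_zero]

end

section

variable {C : Type u} [Category.{v} C] [Preadditive C] [HasZeroObject C] [HasBinaryBiproducts C]
  {G : Type w} [AddCommGroup G] (F : ClF C G)

open CochainComplex in
/-- The terms of the cone. -/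
theorem cone_X {E E' : CochainComplex C ℤ} (f : E ⟶ E') (hE : ∀ n, F.S (E.X n))
    (hE' : ∀ n, F.S (E'.X n)) (n : ℤ) : F.S ((mappingCone f).X n) ∧
      F.cl ((mappingCone f).X n) = F.cl (E.X (n + 1)) + F.cl (E'.X n) := by
  refine F.add ((mappingCone.inl f).v (n + 1) n (by lia))
    ((mappingCone.fst f).1.v n (n + 1) rfl) ((mappingCone.inr f).f n)
    ((mappingCone.snd f).v n n (add_zero n)) ?_ ?_ ?_ ?_ ?_ (hE _) (hE' _)
  · exact mappingCone.inl_v_fst_v f (n + 1) n rfl
  · exact mappingCone.inr_f_snd_v f n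
  · exact mappingCone.inl_v_snd_v f (n + 1) n (by lia)
  · exact mappingCone.inr_f_fst_v f n (n + 1) rfl
  · exact mappingCone.id_X f n (n + 1) rfl

open CochainComplex in
/-- The Euler characteristic is a homotopy invariant. -/
theorem ch_inv (E E' : CochainComplex C ℤ) (hE : ∀ n, F.S (E.X n)) (hE' : ∀ n, F.S (E'.X n))
    (hb : ∃ a b : ℤ, ∀ n, (n < a ∨ b < n) → IsZero (E.X n))
    (hb' : ∃ a b : ℤ, ∀ n, (n < a ∨ b < n) → IsZero (E'.X n))
    (φ : (HomotopyCategory.quotient C (ComplexShape.up ℤ)).obj E ≅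
      (HomotopyCategory.quotient C (ComplexShape.up ℤ)).obj E') : F.ch E = F.ch E' := by
  obtain ⟨f, hf⟩ := (HomotopyCategory.quotient C (ComplexShape.up ℤ)).map_surjective φ.hom
  have hT := HomotopyCategory.mappingCone_triangleh_distinguished f
  have hi : IsIso (mappingCone.triangleh f).mor₁ := by
    show IsIso ((HomotopyCategory.quotient C (ComplexShape.up ℤ)).map f)
    rw [hf]
    infer_instance
  have hz := Pretriangulated.Triangle.isZero₃_of_isIso₁ _ hT hi
  obtain ⟨H⟩ := (HomotopyCategory.isZero_quotient_obj_iff (mappingCone f)).1 hz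
  obtain ⟨a, b, hab⟩ := hb
  obtain ⟨a', b', hab'⟩ := hb'
  have h0 := F.ch_contr (mappingCone f) (fun n => (F.cone_X f hE hE' n).1)
    ⟨min (a - 1) a', max b b', fun n hn => by
      rw [mappingCone.isZero_X_iff]
      exact ⟨hab _ (by omega), hab' _ (by omega)⟩⟩ H
  have e : F.ch (mappingCone f) = ∑ᶠ n : ℤ, ((Int.negOnePow n : ℤ) • F.cl (E.X (n + 1)) +
      (Int.negOnePow n : ℤ) • F.cl (E'.X n)) :=
    finsum_congr fun n => by rw [(F.cone_X f hE hE' n).2, smul_add]
  rw [e, finsum_add_distrib, finsum_shift (g := fun n => F.cl (E.X n))] at h0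
  · exact (neg_add_eq_zero.1 h0)
  · exact finite_of_bdd (a := a - 1) (b := b) fun n hn => by
      rw [F.cl_zero (hab (n + 1) (by omega)) (hE _), smul_zero]
  · exact finite_of_bdd (a := a') (b := b') fun n hn => by
      rw [F.cl_zero (hab' n hn) (hE' _), smul_zero]

end

end ClF

end Pool.Agent.NegK.NT.H65
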