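import Pool.Agent.Lib.MP_28303a_al.NT.Kar
import Pool.Agent.Lib.MP_28303a_al.NK.K0Api
import Pool.Agent.Lib.MP_28303a_al.NT.H65.EulAbs

/-! # The Euler characteristic of finite complexes of located projective modules -/

set_option autoImplicit false
set_option linter.unusedSectionVars false
set_option linter.unusedVariables false

namespace Pool.Agent.NegK.NT.H65

universe u

open CategoryTheory Limits Pretriangulated Idempotents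

section

variable {k : Type u} [Ring k] {Γ : Type u} [Group Γ] {B : Type u} [MulAction Γ B] {P : Pre Γ B}

/-- The matrix of a morphism. -/
noncomputable def M {A A' : Loc k P} (f : A ⟶ A') [Finite A.ι] [Finite A'.ι] :
    Matrix (Fin (Nat.card A.ι)) (Fin (Nat.card A'.ι)) (MonoidAlgebra k Γ) :=
  Matrix.of fun i j =>
    (Loc.lin f (Finsupp.single ((Finite.equivFin A.ι).symm i) 1)) ((Finite.equivFin A'.ι).symm j)

theorem M_comp {A A' A'' : Loc k P} [Finite A.ι] [Finite A'.ι] [Finite A''.ι] (f : A ⟶ A')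
    (g : A' ⟶ A'') : M (f ≫ g) = M f * M g := by
  have := Fintype.ofFinite A'.ι
  refine Matrix.ext fun i j => ?_
  rw [Matrix.mul_apply]
  show (Loc.lin (f ≫ g) (Finsupp.single ((Finite.equivFin A.ι).symm i) 1))
        ((Finite.equivFin A''.ι).symm j) = _
  rw [Loc.lin_comp, LinearMap.comp_apply, Loc.map_apply, Finsupp.sum_fintype _ _
      (fun _ => zero_mul _)]
  exact (Equiv.sum_comp (Finite.equivFin A'.ι).symm fun a =>
      (Loc.lin f (Finsupp.single ((Finite.equivFin A.ι).symm i) 1)) a *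
        (Loc.lin g (Finsupp.single a 1)) ((Finite.equivFin A''.ι).symm j)).symm

theorem M_add {A A' : Loc k P} [Finite A.ι] [Finite A'.ι] (f g : A ⟶ A') :
    M (f + g) = M f + M g := rfl

theorem M_zero {A A' : Loc k P} [Finite A.ι] [Finite A'.ι] :
    M (0 : A ⟶ A') = 0 := rfl

theorem clsK_fin (X : KL k P) [hX : Finite X.X.ι] :
    clsK X = K0.cls ⟨Nat.card X.X.ι, M X.p, by rw [← M_comp, X.idem]⟩ := by
  unfold clsK
  rw [dif_pos hX]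
  rfl

/-- Equivalent idempotents have the same class. -/
theorem clsK_eq (X Y : KL k P) [Finite X.X.ι] [Finite Y.X.ι] (a : X.X ⟶ Y.X) (b : Y.X ⟶ X.X)
    (h1 : a ≫ b = X.p) (h2 : b ≫ a = Y.p) : clsK X = clsK Y := by
  rw [clsK_fin X, clsK_fin Y]
  refine cls_eq_of_equiv ⟨M a, M b, ?_, ?_⟩
  · show M a * M b = M X.p
    rw [← M_comp, h1]
  · show M b * M a = M Y.p
    rw [← M_comp, h2]

theorem clsK_iso {X Y : KL k P} [Finite X.X.ι] [Finite Y.X.ι] (φ : X ≅ Y) : clsK X = clsK Y :=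
  clsK_eq X Y φ.hom.f φ.inv.f
    ((Karoubi.comp_f _ _).symm.trans (congrArg Karoubi.Hom.f φ.hom_inv_id))
    ((Karoubi.comp_f _ _).symm.trans (congrArg Karoubi.Hom.f φ.inv_hom_id))

/-- Additivity for orthogonal idempotents. -/
theorem clsK_orth (A : Loc k P) [Finite A.ι] (e f : A ⟶ A) (he : e ≫ e = e) (hf : f ≫ f = f)
    (hef : e ≫ f = 0) (hfe : f ≫ e = 0) (h : (e + f) ≫ (e + f) = e + f) :
    clsK (⟨A, e + f, h⟩ : KL k P) = clsK (⟨A, e, he⟩ : KL k P) + clsK (⟨A, f, hf⟩ : KL k P) := by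
  have i0 : Finite (⟨A, e + f, h⟩ : KL k P).X.ι := inferInstanceAs (Finite A.ι)
  have i1 : Finite (⟨A, e, he⟩ : KL k P).X.ι := inferInstanceAs (Finite A.ι)
  have i2 : Finite (⟨A, f, hf⟩ : KL k P).X.ι := inferInstanceAs (Finite A.ι)
  rw [clsK_fin (⟨A, e + f, h⟩ : KL k P), clsK_fin (⟨A, e, he⟩ : KL k P),
    clsK_fin (⟨A, f, hf⟩ : KL k P), ← mcls_self, ← mcls_self, ← mcls_self]
  exact mcls_orth (e := M e) (f := M f) (by rw [← M_comp, he]) (by rw [← M_comp, hf])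
    (by rw [← M_comp, hef, M_zero]) (by rw [← M_comp, hfe, M_zero])
    (by rw [← M_add, ← M_comp, h])

theorem clsK_congr (A : Loc k P) (e f : A ⟶ A) (he : e ≫ e = e) (hef : e = f) :
    clsK (⟨A, e, he⟩ : KL k P) = clsK (⟨A, f, by rw [← hef, he]⟩ : KL k P) := by
  subst hef
  rfl

/-- Additivity for sums. -/
theorem clsK_add {X Y Z : KL k P} [Finite X.X.ι] [Finite Y.X.ι] [Finite Z.X.ι] (i : X ⟶ Z)
    (p : Z ⟶ X) (j : Y ⟶ Z) (q : Z ⟶ Y) (hip : i ≫ p = 𝟙 X) (hjq : j ≫ q = 𝟙 Y)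
    (hiq : i ≫ q = 0) (hjp : j ≫ p = 0) (h : p ≫ i + q ≫ j = 𝟙 Z) :
    clsK Z = clsK X + clsK Y := by
  have hip' : i.f ≫ p.f = X.p := congrArg Karoubi.Hom.f hip
  have hjq' : j.f ≫ q.f = Y.p := congrArg Karoubi.Hom.f hjq
  have hiq' : i.f ≫ q.f = 0 := congrArg Karoubi.Hom.f hiq
  have hjp' : j.f ≫ p.f = 0 := congrArg Karoubi.Hom.f hjp
  have h' : p.f ≫ i.f + q.f ≫ j.f = Z.p := congrArg Karoubi.Hom.f h
  have e1 : (p.f ≫ i.f) ≫ p.f ≫ i.f = p.f ≫ i.f := by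
    rw [Category.assoc, ← Category.assoc i.f, hip', ← Category.assoc]
    exact congrArg (· ≫ i.f) (Karoubi.comp_p p)
  have e2 : (q.f ≫ j.f) ≫ q.f ≫ j.f = q.f ≫ j.f := by
    rw [Category.assoc, ← Category.assoc j.f, hjq', ← Category.assoc]
    exact congrArg (· ≫ j.f) (Karoubi.comp_p q)
  have e3 : (p.f ≫ i.f) ≫ q.f ≫ j.f = 0 := by
    rw [Category.assoc, ← Category.assoc i.f, hiq', zero_comp, comp_zero]
  have e4 : (q.f ≫ j.f) ≫ p.f ≫ i.f = 0 := by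
    rw [Category.assoc, ← Category.assoc j.f, hjp', zero_comp, comp_zero]
  have e5 : (p.f ≫ i.f + q.f ≫ j.f) ≫ (p.f ≫ i.f + q.f ≫ j.f) = p.f ≫ i.f + q.f ≫ j.f := by
    rw [h', Z.idem]
  have i1 : Finite (⟨Z.X, p.f ≫ i.f, e1⟩ : KL k P).X.ι := inferInstanceAs (Finite Z.X.ι)
  have i2 : Finite (⟨Z.X, q.f ≫ j.f, e2⟩ : KL k P).X.ι := inferInstanceAs (Finite Z.X.ι)
  calc clsK Z = clsK (⟨Z.X, Z.p, Z.idem⟩ : KL k P) := rfl
    _ = clsK (⟨Z.X, p.f ≫ i.f + q.f ≫ j.f, e5⟩ : KL k P) := clsK_congr _ _ _ _ h'.symm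
    _ = clsK (⟨Z.X, p.f ≫ i.f, e1⟩ : KL k P) + clsK (⟨Z.X, q.f ≫ j.f, e2⟩ : KL k P) :=
      clsK_orth _ _ _ e1 e2 e3 e4 e5
    _ = clsK X + clsK Y := by
      rw [clsK_eq X (⟨Z.X, p.f ≫ i.f, e1⟩ : KL k P) i.f p.f hip' rfl,
        clsK_eq Y (⟨Z.X, q.f ≫ j.f, e2⟩ : KL k P) j.f q.f hjq' rfl]

/-- The sum of two located projective modules. -/
noncomputable def smK (X Y : KL k P) : KL k P where
  X := Loc.sm X.X Y.X
  p := Loc.sFst X.X Y.X ≫ X.p ≫ Loc.sInl X.X Y.X + Loc.sSnd X.X Y.X ≫ Y.p ≫ Loc.sInr X.X Y.X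
  idem := by
    have h1 := (Loc.bic X.X Y.X).inl_fst
    have h2 := (Loc.bic X.X Y.X).inl_snd
    have h3 := (Loc.bic X.X Y.X).inr_fst
    have h4 := (Loc.bic X.X Y.X).inr_snd
    have h1 : Loc.sInl X.X Y.X ≫ Loc.sFst X.X Y.X = 𝟙 X.X := h1
    have h2 : Loc.sInl X.X Y.X ≫ Loc.sSnd X.X Y.X = 0 := h2
    have h3 : Loc.sInr X.X Y.X ≫ Loc.sFst X.X Y.X = 0 := h3
    have h4 : Loc.sInr X.X Y.X ≫ Loc.sSnd X.X Y.X = 𝟙 Y.X := h4
    simp only [Preadditive.comp_add, Preadditive.add_comp, Category.assoc]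
    rw [← Category.assoc (Loc.sInl X.X Y.X), ← Category.assoc (Loc.sInl X.X Y.X),
      ← Category.assoc (Loc.sInr X.X Y.X), ← Category.assoc (Loc.sInr X.X Y.X), h1, h2, h3, h4]
    simp only [zero_comp, comp_zero, add_zero, zero_add, Category.id_comp]
    rw [← Category.assoc X.p, X.idem, ← Category.assoc Y.p, Y.idem]

theorem exists_smK (X Y : KL k P) : ∃ (i : X ⟶ smK X Y) (p : smK X Y ⟶ X) (j : Y ⟶ smK X Y)
    (q : smK X Y ⟶ Y), i ≫ p = 𝟙 X ∧ j ≫ q = 𝟙 Y ∧ i ≫ q = 0 ∧ j ≫ p = 0 ∧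
      p ≫ i + q ≫ j = 𝟙 (smK X Y) := by
  have h1 : Loc.sInl X.X Y.X ≫ Loc.sFst X.X Y.X = 𝟙 X.X := (Loc.bic X.X Y.X).inl_fst
  have h2 : Loc.sInl X.X Y.X ≫ Loc.sSnd X.X Y.X = 0 := (Loc.bic X.X Y.X).inl_snd
  have h3 : Loc.sInr X.X Y.X ≫ Loc.sFst X.X Y.X = 0 := (Loc.bic X.X Y.X).inr_fst
  have h4 : Loc.sInr X.X Y.X ≫ Loc.sSnd X.X Y.X = 𝟙 Y.X := (Loc.bic X.X Y.X).inr_snd
  have a1 : ∀ {W : Loc k P} (f : X.X ⟶ W), Loc.sInl X.X Y.X ≫ Loc.sFst X.X Y.X ≫ f = f :=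
    fun f => by rw [← Category.assoc, h1, Category.id_comp]
  have a2 : ∀ {W : Loc k P} (f : Y.X ⟶ W), Loc.sInl X.X Y.X ≫ Loc.sSnd X.X Y.X ≫ f = 0 :=
    fun f => by rw [← Category.assoc, h2, zero_comp]
  have a3 : ∀ {W : Loc k P} (f : X.X ⟶ W), Loc.sInr X.X Y.X ≫ Loc.sFst X.X Y.X ≫ f = 0 :=
    fun f => by rw [← Category.assoc, h3, zero_comp]
  have a4 : ∀ {W : Loc k P} (f : Y.X ⟶ W), Loc.sInr X.X Y.X ≫ Loc.sSnd X.X Y.X ≫ f = f :=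
    fun f => by rw [← Category.assoc, h4, Category.id_comp]
  have b1 : ∀ {W : Loc k P} (f : X.X ⟶ W), X.p ≫ X.p ≫ f = X.p ≫ f := fun f => by
    rw [← Category.assoc, X.idem]
  have b2 : ∀ {W : Loc k P} (f : Y.X ⟶ W), Y.p ≫ Y.p ≫ f = Y.p ≫ f := fun f => by
    rw [← Category.assoc, Y.idem]
  have hp : (smK X Y).p = Loc.sFst X.X Y.X ≫ X.p ≫ Loc.sInl X.X Y.X +
    Loc.sSnd X.X Y.X ≫ Y.p ≫ Loc.sInr X.X Y.X := rfl
  refine ⟨⟨X.p ≫ Loc.sInl X.X Y.X, ?_⟩, ⟨Loc.sFst X.X Y.X ≫ X.p, ?_⟩,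
    ⟨Y.p ≫ Loc.sInr X.X Y.X, ?_⟩, ⟨Loc.sSnd X.X Y.X ≫ Y.p, ?_⟩, ?_, ?_, ?_, ?_, ?_⟩
  · have e : X.p ≫ (X.p ≫ Loc.sInl X.X Y.X) ≫ (Loc.sFst X.X Y.X ≫ X.p ≫ Loc.sInl X.X Y.X +
        Loc.sSnd X.X Y.X ≫ Y.p ≫ Loc.sInr X.X Y.X) = X.p ≫ Loc.sInl X.X Y.X := by
      simp only [Preadditive.comp_add, Category.assoc, a1, a2, b1, comp_zero, add_zero]
    exact e
  · have e : (Loc.sFst X.X Y.X ≫ X.p ≫ Loc.sInl X.X Y.X +
        Loc.sSnd X.X Y.X ≫ Y.p ≫ Loc.sInr X.X Y.X) ≫ (Loc.sFst X.X Y.X ≫ X.p) ≫ X.p =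
        Loc.sFst X.X Y.X ≫ X.p := by
      simp only [Preadditive.add_comp, Category.assoc, a1, a3, comp_zero, add_zero, X.idem]
    exact e
  · have e : Y.p ≫ (Y.p ≫ Loc.sInr X.X Y.X) ≫ (Loc.sFst X.X Y.X ≫ X.p ≫ Loc.sInl X.X Y.X +
        Loc.sSnd X.X Y.X ≫ Y.p ≫ Loc.sInr X.X Y.X) = Y.p ≫ Loc.sInr X.X Y.X := by
      simp only [Preadditive.comp_add, Category.assoc, a3, a4, b2, comp_zero, zero_add]
    exact e
  · have e : (Loc.sFst X.X Y.X ≫ X.p ≫ Loc.sInl X.X Y.X +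
        Loc.sSnd X.X Y.X ≫ Y.p ≫ Loc.sInr X.X Y.X) ≫ (Loc.sSnd X.X Y.X ≫ Y.p) ≫ Y.p =
        Loc.sSnd X.X Y.X ≫ Y.p := by
      simp only [Preadditive.add_comp, Category.assoc, a2, a4, comp_zero, zero_add, Y.idem]
    exact e
  · refine Karoubi.hom_ext _ _ ?_
    show (X.p ≫ Loc.sInl X.X Y.X) ≫ Loc.sFst X.X Y.X ≫ X.p = X.p
    rw [Category.assoc, a1, X.idem]
  · refine Karoubi.hom_ext _ _ ?_
    show (Y.p ≫ Loc.sInr X.X Y.X) ≫ Loc.sSnd X.X Y.X ≫ Y.p = Y.p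
    rw [Category.assoc, a4, Y.idem]
  · refine Karoubi.hom_ext _ _ ?_
    show (X.p ≫ Loc.sInl X.X Y.X) ≫ Loc.sSnd X.X Y.X ≫ Y.p = 0
    rw [Category.assoc, a2, comp_zero]
  · refine Karoubi.hom_ext _ _ ?_
    show (Y.p ≫ Loc.sInr X.X Y.X) ≫ Loc.sFst X.X Y.X ≫ X.p = 0
    rw [Category.assoc, a3, comp_zero]
  · refine Karoubi.hom_ext _ _ ?_
    show (Loc.sFst X.X Y.X ≫ X.p) ≫ X.p ≫ Loc.sInl X.X Y.X +
      (Loc.sSnd X.X Y.X ≫ Y.p) ≫ Y.p ≫ Loc.sInr X.X Y.X = (smK X Y).p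
    rw [Category.assoc, Category.assoc, b1, b2, hp]

/-- Objects which are isomorphic to finite ones. -/
def EF (Z : KL k P) : Prop := ∃ Y : KL k P, Finite Y.X.ι ∧ Nonempty (Z ≅ Y)

open Classical in
/-- The class of an object which is isomorphic to a finite one. -/
noncomputable def clE (Z : KL k P) : K0 (MonoidAlgebra k Γ) :=
  if h : EF Z then clsK h.choose else 0

theorem clE_eq {Z Y : KL k P} [hY : Finite Y.X.ι] (φ : Z ≅ Y) : clE Z = clsK Y := by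
  have h : EF Z := ⟨Y, hY, ⟨φ⟩⟩
  unfold clE
  rw [dif_pos h]
  obtain ⟨h1, ⟨ψ⟩⟩ := h.choose_spec
  exact clsK_iso (ψ.symm ≪≫ φ)

theorem sum_iso {X Y Z Z' : KL k P} (i : X ⟶ Z)
    (p : Z ⟶ X) (j : Y ⟶ Z) (q : Z ⟶ Y) (hip : i ≫ p = 𝟙 X) (hjq : j ≫ q = 𝟙 Y)
    (hiq : i ≫ q = 0) (hjp : j ≫ p = 0) (h : p ≫ i + q ≫ j = 𝟙 Z) (i' : X ⟶ Z')
    (p' : Z' ⟶ X) (j' : Y ⟶ Z') (q' : Z' ⟶ Y) (hip' : i' ≫ p' = 𝟙 X) (hjq' : j' ≫ q' = 𝟙 Y)
    (hiq' : i' ≫ q' = 0) (hjp' : j' ≫ p' = 0) (h' : p' ≫ i' + q' ≫ j' = 𝟙 Z') :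
    Nonempty (Z ≅ Z') := by
  refine ⟨⟨p ≫ i' + q ≫ j', p' ≫ i + q' ≫ j, ?_, ?_⟩⟩
  · rw [Preadditive.add_comp, Preadditive.comp_add, Preadditive.comp_add, Category.assoc,
      Category.assoc, Category.assoc, Category.assoc, ← Category.assoc i', ← Category.assoc i',
      ← Category.assoc j', ← Category.assoc j', hip', hiq', hjp', hjq']
    rw [Category.id_comp, Category.id_comp, zero_comp, zero_comp, comp_zero, comp_zero, add_zero,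
      zero_add, h]
  · rw [Preadditive.add_comp, Preadditive.comp_add, Preadditive.comp_add, Category.assoc,
      Category.assoc, Category.assoc, Category.assoc, ← Category.assoc i, ← Category.assoc i,
      ← Category.assoc j, ← Category.assoc j, hip, hiq, hjp, hjq]
    rw [Category.id_comp, Category.id_comp, zero_comp, zero_comp, comp_zero, comp_zero, add_zero,
      zero_add, h']

/-- The class function. -/
noncomputable def clF (k : Type u) [Ring k] {Γ : Type u} [Group Γ] {B : Type u} [MulAction Γ B]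
    (P : Pre Γ B) : ClF (KL k P) (K0 (MonoidAlgebra k Γ)) where
  S := EF
  cl := clE
  iso := by
    rintro X Y φ ⟨X', hX', ⟨ψ⟩⟩
    exact ⟨⟨X', hX', ⟨φ.symm ≪≫ ψ⟩⟩, by rw [clE_eq ψ, clE_eq (φ.symm ≪≫ ψ)]⟩
  add := by
    rintro X Y Z i p j q hip hjq hiq hjp h ⟨X', hX', ⟨φ⟩⟩ ⟨Y', hY', ⟨ψ⟩⟩
    obtain ⟨i', p', j', q', h1, h2, h3, h4, h5⟩ := exists_smK X' Y'
    have hfin : Finite (smK X' Y').X.ι := inferInstanceAs (Finite (X'.X.ι ⊕ Y'.X.ι))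
    obtain ⟨χ⟩ := sum_iso i p j q hip hjq hiq hjp h (φ.hom ≫ i') (p' ≫ φ.inv) (ψ.hom ≫ j')
      (q' ≫ ψ.inv)
      (by rw [Category.assoc, ← Category.assoc i', h1, Category.id_comp, φ.hom_inv_id])
      (by rw [Category.assoc, ← Category.assoc j', h2, Category.id_comp, ψ.hom_inv_id])
      (by rw [Category.assoc, ← Category.assoc i', h3, zero_comp, comp_zero])
      (by rw [Category.assoc, ← Category.assoc j', h4, zero_comp, comp_zero])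
      (by rw [Category.assoc, ← Category.assoc φ.inv, φ.inv_hom_id, Category.id_comp,
        Category.assoc, ← Category.assoc ψ.inv, ψ.inv_hom_id, Category.id_comp, h5])
    refine ⟨⟨smK X' Y', hfin, ⟨χ⟩⟩, ?_⟩
    rw [clE_eq χ, clE_eq φ, clE_eq ψ]
    exact clsK_add i' p' j' q' h1 h2 h3 h4 h5
  spl := by
    rintro X e ⟨X', hX', ⟨φ⟩⟩ he
    have he' : (φ.inv ≫ e ≫ φ.hom) ≫ φ.inv ≫ e ≫ φ.hom = φ.inv ≫ e ≫ φ.hom := by
      simp only [Category.assoc, Iso.hom_inv_id_assoc]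
      rw [← Category.assoc e, he]
    have hf : (φ.inv ≫ e ≫ φ.hom).f ≫ (φ.inv ≫ e ≫ φ.hom).f = (φ.inv ≫ e ≫ φ.hom).f :=
      congrArg Karoubi.Hom.f he'
    set c := φ.inv ≫ e ≫ φ.hom with hc
    let Y : KL k P := ⟨X'.X, c.f, hf⟩
    let r : X' ⟶ Y := ⟨c.f, by
      show X'.p ≫ c.f ≫ c.f = c.f
      rw [hf]
      exact Karoubi.p_comp c⟩
    let s : Y ⟶ X' := ⟨c.f, by
      show c.f ≫ c.f ≫ X'.p = c.f
      rw [← Category.assoc, hf]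
      exact Karoubi.comp_p c⟩
    have hsr : s ≫ r = 𝟙 Y := Karoubi.hom_ext _ _ hf
    have hrs : r ≫ s = c := Karoubi.hom_ext _ _ hf
    refine ⟨Y, φ.hom ≫ r, s ≫ φ.inv, ?_, ?_, ⟨Y, hX', ⟨Iso.refl _⟩⟩⟩
    · rw [Category.assoc, ← Category.assoc φ.inv, φ.inv_hom_id, Category.id_comp, hsr]
    · rw [Category.assoc, ← Category.assoc r, hrs, hc]
      simp only [Category.assoc, Iso.hom_inv_id_assoc, Iso.hom_inv_id, Category.comp_id]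

theorem ch_eq (E : CochainComplex (KL k P) ℤ) (hE : FinK E) : (clF k P).ch E = chi E :=
  finsum_congr fun n => by
    have := hE.fin n
    show _ • clE (E.X n) = _
    rw [clE_eq (Iso.refl _)]

end

/-- EUL. -/
theorem eul (k : Type u) [Ring k] {Γ : Type u} [Group Γ] {B : Type u} [MulAction Γ B]
    (P : Pre Γ B) : EUL k P := by
  rintro E E' hE hE' ⟨φ⟩
  rw [← ch_eq E hE, ← ch_eq E' hE']
  exact (clF k P).ch_inv E E' (fun n => ⟨_, hE.fin n, ⟨Iso.refl _⟩⟩)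
    (fun n => ⟨_, hE'.fin n, ⟨Iso.refl _⟩⟩) hE.bdd hE'.bdd φ

end Pool.Agent.NegK.NT.H65
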